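import Pool.Agent.Work.MP_394e0d_co.B.Main

namespace Pool.Agent.Results.MP_394e0d_co.AllPlanes

open Pool.Agent.Work.MP_394e0d_co Pool.Agent.Work.MP_394e0d_co.B

/-- For every `q > 2`, every `((q+1) × q², q(q+1))`-unordered triple array is the underlying
unordered triple array of a triple array; and there is one if `q` is a prime power. -/
theorem result (q : ℕ) (hq : 2 < q) :
    (∀ (row : Fin (q + 1) → Set (Fin (q * (q + 1))))
      (col : Fin (q ^ 2) → Set (Fin (q * (q + 1)))), IsUnorderedTripleArray row col →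
      ∃ A : Fin (q + 1) → Fin (q ^ 2) → Fin (q * (q + 1)), IsTripleArray A ∧
        (∀ i, Set.range (fun j => A i j) = row i) ∧ ∀ j, Set.range (fun i => A i j) = col j) ∧
    (IsPrimePow q → ∃ (row : Fin (q + 1) → Set (Fin (q * (q + 1))))
      (col : Fin (q ^ 2) → Set (Fin (q * (q + 1)))), IsUnorderedTripleArray row col) :=
  ⟨order q hq, fun hp => ⟨_, _, forget (main q hp hq).choose_spec⟩⟩

end Pool.Agent.Results.MP_394e0d_co.AllPlanes
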