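import Pool.Agent.Work.MP_394e0d_co.H.Two

namespace Pool.Agent.Results.MP_394e0d_co.HigherDim

open Pool.Agent.Work.MP_394e0d_co

/-- Agrawal's array of `PG(n,q)` can be ordered whenever `q^(n-1) > 2`. Rows are the points at
infinity, columns the affine points, and the symbol `(x, k)` is the affine hyperplane
`x.rep ⬝ᵥ P = k`; there are `(q^n-1)/(q-1)` rows, `q^n` columns and `q (q^n-1)/(q-1)` symbols. -/
theorem result (F : Type) [Field F] [Finite F] (n : ℕ) (h : 2 < Nat.card F ^ (n - 1)) :
    ∃ A : Projectivization F (Fin n → F) → (Fin n → F) → Projectivization F (Fin n → F) × F,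
      IsTripleArray A ∧ (∀ d, Set.range (fun P => A d P) = {s | s.1.rep ⬝ᵥ d.rep ≠ 0}) ∧
      ∀ P, Set.range (fun d => A d P) = {s | s.1.rep ⬝ᵥ P = s.2} :=
  H.main_all n h

end Pool.Agent.Results.MP_394e0d_co.HigherDim
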